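import Mathlib

/-!
A covering problem on an interval `{0, ..., d}` with heights `H i ≤ min (i, d - i)`:
sources `(c, r c)` with distinct centres, every `i` must be reached twice in the sense
`|i - c| + H i ≤ r c`, total cost at most `(2 ∑ (1 + H i) + 4) / 3`.
-/

namespace Pool.Agent.Q162.TwoB

open Finset

/-- positions where the interval may be cut -/
def Cut (d : ℕ) (H : ℕ → ℕ) (j : ℕ) : Prop :=
  j ≤ d + 1 ∧ ∀ i ≤ d, (i < j → i + H i < j) ∧ (j ≤ i → j + H i ≤ i)

/-- weight of the part from `a` on -/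
def W (d : ℕ) (H : ℕ → ℕ) (a : ℕ) : ℕ := ∑ i ∈ Finset.Ico a (d + 1), (1 + H i)

variable {d : ℕ} {H : ℕ → ℕ}

lemma cut_zero (hH : ∀ i ≤ d, H i ≤ i ∧ i + H i ≤ d) : Cut d H 0 := by
  refine ⟨by omega, fun i hi => ⟨fun h => by omega, fun _ => ?_⟩⟩
  have := (hH i hi).1
  omega

lemma cut_end (hH : ∀ i ≤ d, H i ≤ i ∧ i + H i ≤ d) : Cut d H (d + 1) := by
  refine ⟨le_rfl, fun i hi => ⟨fun h => ?_, fun h => by omega⟩⟩
  have := (hH i hi).2
  omega

lemma W_split {b c : ℕ} (h : b ≤ c) (hc : c ≤ d + 1) :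
    W d H b = (∑ i ∈ Finset.Ico b c, (1 + H i)) + W d H c := by
  unfold W
  rw [Finset.sum_Ico_consecutive _ h hc]

lemma core {b c : ℕ} (hb : Cut d H b) (hc : Cut d H c)
    (hno : ∀ j, b < j → j < c → Cut d H j → (j - b) % 2 = 0) :
    (c - b) / 2 ≤ ∑ i ∈ Finset.Ico b c, H i := by
  classical
  have hsub : Finset.range ((c - b) / 2) ⊆ (Finset.Ico b c).biUnion
      (fun i => Finset.Ico ((i - H i - b + 1) / 2) ((i - H i - b + 1) / 2 + H i)) := by
    intro t ht
    rw [Finset.mem_range] at ht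
    have hcd := hc.1
    have hncut : ¬ Cut d H (b + 1 + 2 * t) := by
      intro hcut
      have := hno (b + 1 + 2 * t) (by omega) (by omega) hcut
      omega
    unfold Cut at hncut
    push Not at hncut
    obtain ⟨i, hid, hi⟩ := hncut (by omega)
    rw [Finset.mem_biUnion]
    have hbi := hb.2 i hid
    have hci := hc.2 i hid
    by_cases h1 : i < b + 1 + 2 * t
    · by_cases h2 : i + H i < b + 1 + 2 * t
      · obtain ⟨h3, h4⟩ := hi (fun _ => h2)
        omega
      · have hib : b ≤ i := by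
          by_contra hcon
          have := hbi.1 (by omega)
          omega
        have hic : i < c := by omega
        refine ⟨i, Finset.mem_Ico.2 ⟨hib, hic⟩, Finset.mem_Ico.2 ?_⟩
        have h5 := hbi.2 hib
        omega
    · obtain ⟨h3, h4⟩ := hi (fun h => absurd h h1)
      have hib : b ≤ i := by omega
      have hic : i < c := by
        by_contra hcon
        have := hci.2 (by omega)
        omega
      refine ⟨i, Finset.mem_Ico.2 ⟨hib, hic⟩, Finset.mem_Ico.2 ?_⟩
      have h5 := hbi.2 hib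
      omega
  calc (c - b) / 2 = (Finset.range ((c - b) / 2)).card := by simp
    _ ≤ _ := Finset.card_le_card hsub
    _ ≤ ∑ i ∈ Finset.Ico b c,
        (Finset.Ico ((i - H i - b + 1) / 2) ((i - H i - b + 1) / 2 + H i)).card :=
        Finset.card_biUnion_le
    _ = ∑ i ∈ Finset.Ico b c, H i := by
        apply Finset.sum_congr rfl
        intro i _
        rw [Nat.card_Ico]
        omega

/-- potential -/
def Ph (d : ℕ) (H : ℕ → ℕ) (x : ℕ) : ℕ := 3 * x + 2 * W d H x

lemma seg {b c : ℕ} (hb : Cut d H b) (hc : Cut d H c) (hbc : b ≤ c)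
    (hno : ∀ j, b < j → j < c → Cut d H j → (j - b) % 2 = 0) :
    Ph d H c ≤ Ph d H b + (c - b) % 2 := by
  have h1 := core hb hc hno
  have h2 := W_split (d := d) (H := H) hbc hc.1
  have h3 : ∑ i ∈ Finset.Ico b c, (1 + H i) = (c - b) + ∑ i ∈ Finset.Ico b c, H i := by
    rw [Finset.sum_add_distrib]
    simp
  unfold Ph
  omega

/-- a later cut of the other parity exists -/
def HasNext (d : ℕ) (H : ℕ → ℕ) (b : ℕ) : Prop := ∃ c, b < c ∧ Cut d H c ∧ (c - b) % 2 = 1

lemma next_exists {b : ℕ} (hb : Cut d H b) (h : HasNext d H b) :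
    ∃ c, b < c ∧ Cut d H c ∧ (c - b) % 2 = 1 ∧ Ph d H c ≤ Ph d H b + 1 := by
  classical
  obtain ⟨h1, h2, h3⟩ := Nat.find_spec h
  refine ⟨Nat.find h, h1, h2, h3, ?_⟩
  have := seg hb h2 h1.le (by
    intro j hj1 hj2 hj3
    by_contra hcon
    exact Nat.find_min h hj2 ⟨hj1, hj3, by omega⟩)
  omega

lemma no_next {b : ℕ} (hH : ∀ i ≤ d, H i ≤ i ∧ i + H i ≤ d) (hb : Cut d H b)
    (h : ¬ HasNext d H b) :
    (d + 1 - b) % 2 = 0 ∧ 3 * (d + 1) ≤ Ph d H b := by
  have hp : (d + 1 - b) % 2 = 0 := by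
    by_contra hcon
    have : b ≠ d + 1 := by
      rintro rfl
      omega
    have hb1 := hb.1
    exact h ⟨d + 1, by omega, cut_end hH, by omega⟩
  refine ⟨hp, ?_⟩
  have := seg hb (cut_end hH) hb.1 (by
    intro j hj1 hj2 hj3
    by_contra hcon
    exact h ⟨j, hj1, hj3, by omega⟩)
  have h0 : Ph d H (d + 1) = 3 * (d + 1) := by
    unfold Ph W
    simp
  omega

/-- the source at `c` reaches `i` -/
def Rch (H r : ℕ → ℕ) (c i : ℕ) : Prop := r c ≠ 0 ∧ i + H i ≤ c + r c ∧ c + H i ≤ i + r c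

/-- partial solutions -/
def Good (d : ℕ) (H : ℕ → ℕ) (a b : ℕ) : Prop :=
  ∃ r : ℕ → ℕ, (∀ c, r c ≠ 0 → c ≤ d ∧ a + b ≤ 2 * c + 1) ∧ (∀ c, r c ≤ d) ∧
    (∀ i, a ≤ i → i ≤ d → ∃ c, Rch H r c i) ∧
    (∀ i, b ≤ i → i ≤ d → ∃ c₁ c₂, c₁ ≠ c₂ ∧ Rch H r c₁ i ∧ Rch H r c₂ i) ∧
    3 * ∑ c ∈ Finset.range (d + 1), r c ≤ W d H a + W d H b + 3

lemma Rch_update {r : ℕ → ℕ} {s ρ : ℕ} (hs : r s = 0) {c i : ℕ} (h : Rch H r c i) :
    Rch H (Function.update r s ρ) c i ∧ c ≠ s := by
  have hne : c ≠ s := by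
    rintro rfl
    exact h.1 hs
  refine ⟨?_, hne⟩
  unfold Rch at *
  rw [Function.update_of_ne hne]
  exact h

lemma sum_update {r : ℕ → ℕ} {s ρ : ℕ} (hs : r s = 0) (hsd : s ≤ d) :
    ∑ c ∈ Finset.range (d + 1), Function.update r s ρ c
      = ∑ c ∈ Finset.range (d + 1), r c + ρ := by
  classical
  have hmem : s ∈ Finset.range (d + 1) := Finset.mem_range.2 (by omega)
  rw [Finset.sum_update_of_mem hmem, ← Finset.sum_erase_add (Finset.range (d + 1)) r hmem, hs,
    Finset.sdiff_singleton_eq_erase]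
  ring

lemma reach_of {a c s ρ i : ℕ} (ha : Cut d H a) (hc : Cut d H c) (hai : a ≤ i) (hic : i < c)
    (hid : i ≤ d) (h1 : s ≤ a + ρ) (h2 : c ≤ s + ρ + 1) :
    i + H i ≤ s + ρ ∧ s + H i ≤ i + ρ := by
  have h3 := (ha.2 i hid).2 hai
  have h4 := (hc.2 i hid).1 hic
  omega

/-- add one group `[a, c)` with `a < b < c` -/
lemma add_group {a b c : ℕ} (ha : Cut d H a) (_hb : Cut d H b) (hc : Cut d H c)
    (hab : a < b) (hbc : b < c) (hpar : (c - a) % 2 = 1) (hPh : Ph d H c ≤ Ph d H a + 3)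
    (hG : Good d H b c) : Good d H a b := by
  obtain ⟨r, hr1, hr2, hr3, hr4, hr5⟩ := hG
  have hcd := hc.1
  set s := (a + c - 1) / 2 with hs
  set ρ := (c - a - 1) / 2 with hρ
  have hs2 : 2 * s = a + c - 1 := by omega
  have hρ2 : 2 * ρ = c - a - 1 := by omega
  have hrs : r s = 0 := by
    by_contra hcon
    have := (hr1 s hcon).2
    omega
  refine ⟨Function.update r s ρ, ?_, ?_, ?_, ?_, ?_⟩
  · intro c' hc'
    by_cases hcs : c' = s
    · subst hcs
      omega
    · rw [Function.update_of_ne hcs] at hc'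
      have := hr1 c' hc'
      omega
  · intro c'
    by_cases hcs : c' = s
    · rw [hcs, Function.update_self]
      omega
    · rw [Function.update_of_ne hcs]
      exact hr2 c'
  · intro i hai hid
    by_cases hic : i < c
    · refine ⟨s, ?_, ?_⟩
      · rw [Function.update_self]; omega
      · rw [Function.update_self]
        exact reach_of ha hc hai hic hid (by omega) (by omega)
    · obtain ⟨c', hc'⟩ := hr3 i (by omega) hid
      exact ⟨c', (Rch_update hrs hc').1⟩
  · intro i hbi hid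
    by_cases hic : i < c
    · obtain ⟨c', hc'⟩ := hr3 i hbi hid
      obtain ⟨h1, h2⟩ := Rch_update (ρ := ρ) hrs hc'
      refine ⟨c', s, h2, h1, ?_, ?_⟩
      · rw [Function.update_self]; omega
      · rw [Function.update_self]
        exact reach_of ha hc (by omega) hic hid (by omega) (by omega)
    · obtain ⟨c₁, c₂, h0, h1, h2⟩ := hr4 i (by omega) hid
      exact ⟨c₁, c₂, h0, (Rch_update hrs h1).1, (Rch_update hrs h2).1⟩
  · rw [sum_update hrs (by omega)]
    unfold Ph at hPh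
    omega

lemma two_sources {a b s₁ s₂ ρ₁ ρ₂ : ℕ} (hH : ∀ i ≤ d, H i ≤ i ∧ i + H i ≤ d)
    (ha : Cut d H a) (hb : Cut d H b) (hab : a ≤ b) (hne : s₁ ≠ s₂)
    (h1 : s₁ ≤ d) (h2 : s₂ ≤ d) (h3 : 1 ≤ ρ₁) (h4 : ρ₁ ≤ d) (h5 : 1 ≤ ρ₂) (h6 : ρ₂ ≤ d)
    (h7 : s₁ ≤ a + ρ₁) (h8 : d ≤ s₁ + ρ₁) (h9 : s₂ ≤ b + ρ₂) (h10 : d ≤ s₂ + ρ₂)
    (h11 : a + b ≤ 2 * s₁ + 1) (h12 : a + b ≤ 2 * s₂ + 1)
    (h13 : 3 * (ρ₁ + ρ₂) ≤ W d H a + W d H b + 3) : Good d H a b := by
  have hr0 : ∀ c : ℕ, (Function.update (fun _ => 0) s₁ ρ₁ : ℕ → ℕ) c ≠ 0 → c = s₁ := by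
    intro c hc
    by_contra hcon
    rw [Function.update_of_ne hcon] at hc
    exact hc rfl
  have hrs : (Function.update (fun _ => 0) s₁ ρ₁ : ℕ → ℕ) s₂ = 0 := by
    by_contra hcon
    exact hne (hr0 s₂ hcon).symm
  have e1 : Function.update (Function.update (fun _ => 0) s₁ ρ₁ : ℕ → ℕ) s₂ ρ₂ s₁ = ρ₁ := by
    rw [Function.update_of_ne hne, Function.update_self]
  have e2 : Function.update (Function.update (fun _ => 0) s₁ ρ₁ : ℕ → ℕ) s₂ ρ₂ s₂ = ρ₂ := by
    rw [Function.update_self]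
  have e3 : ∀ c, c ≠ s₁ → c ≠ s₂ →
      Function.update (Function.update (fun _ => 0) s₁ ρ₁ : ℕ → ℕ) s₂ ρ₂ c = 0 := by
    intro c hc1 hc2
    rw [Function.update_of_ne hc2, Function.update_of_ne hc1]
  have hce := cut_end hH
  refine ⟨Function.update (Function.update (fun _ => 0) s₁ ρ₁) s₂ ρ₂, ?_, ?_, ?_, ?_, ?_⟩
  · intro c hc
    by_cases hc2 : c = s₂
    · subst hc2; exact ⟨h2, h12⟩
    · by_cases hc1 : c = s₁
      · subst hc1; exact ⟨h1, h11⟩
      · exact absurd (e3 c hc1 hc2) hc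
  · intro c
    by_cases hc2 : c = s₂
    · rw [hc2, e2]; exact h6
    · by_cases hc1 : c = s₁
      · rw [hc1, e1]; exact h4
      · rw [e3 c hc1 hc2]; omega
  · intro i hai hid
    refine ⟨s₁, ?_, ?_⟩
    · rw [e1]; omega
    · rw [e1]; exact reach_of ha hce hai (by omega) hid (by omega) (by omega)
  · intro i hbi hid
    refine ⟨s₁, s₂, hne, ⟨?_, ?_⟩, ⟨?_, ?_⟩⟩
    · rw [e1]; omega
    · rw [e1]; exact reach_of ha hce (by omega) (by omega) hid (by omega) (by omega)
    · rw [e2]; omega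
    · rw [e2]; exact reach_of hb hce hbi (by omega) hid (by omega) (by omega)
  · rw [sum_update hrs h2, sum_update rfl h1]
    simp only [Finset.sum_const_zero]
    omega

lemma state_good (hH : ∀ i ≤ d, H i ≤ i ∧ i + H i ≤ d) :
    ∀ n a b : ℕ, d + 1 - b ≤ n → Cut d H a → Cut d H b → a < b → HasNext d H b →
      (((b - a) % 2 = 1 ∧ Ph d H b ≤ Ph d H a + 1) ∨
        ((b - a) % 2 = 0 ∧ Ph d H b ≤ Ph d H a + 2)) → Good d H a b := by
  intro n
  induction n with
  | zero =>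
    intro a b hn ha hb hab hnb _
    obtain ⟨c, hbc, hc, _⟩ := hnb
    have := hc.1
    omega
  | succ n ih =>
    intro a b hn ha hb hab hnb hcase
    obtain ⟨c₁, hbc1, hc1, hp1, hP1⟩ := next_exists hb hnb
    have hc1d := hc1.1
    rcases hcase with ⟨hpar, hPab⟩ | ⟨hpar, hPab⟩
    · by_cases hn1 : HasNext d H c₁
      · obtain ⟨c₂, hbc2, hc2, hp2, hP2⟩ := next_exists hc1 hn1
        have hc2d := hc2.1
        by_cases hn2 : HasNext d H c₂
        · have hG := ih b c₂ (by omega) hb hc2 (by omega) hn2 (Or.inr ⟨by omega, by omega⟩)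
          exact add_group ha hb hc2 hab (by omega) (by omega) (by omega) hG
        · obtain ⟨hq1, hq2⟩ := no_next hH hc2 hn2
          unfold Ph at *
          apply two_sources hH ha hb hab.le (s₁ := (a + d) / 2) (ρ₁ := (d - a) / 2)
            (s₂ := (b + d + 1) / 2) (ρ₂ := (d + 1 - b) / 2) <;> omega
      · obtain ⟨hq1, hq2⟩ := no_next hH hc1 hn1
        unfold Ph at *
        by_cases hbd : b = d
        · apply two_sources hH ha hb hab.le (s₁ := (a + d - 1) / 2) (ρ₁ := (d + 1 - a) / 2)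
            (s₂ := d) (ρ₂ := 1) <;> omega
        · apply two_sources hH ha hb hab.le (s₁ := (a + d - 1) / 2) (ρ₁ := (d + 1 - a) / 2)
            (s₂ := (b + d) / 2) (ρ₂ := (d - b) / 2) <;> omega
    · by_cases hn1 : HasNext d H c₁
      · have hG := ih b c₁ (by omega) hb hc1 (by omega) hn1 (Or.inl ⟨by omega, by omega⟩)
        exact add_group ha hb hc1 hab (by omega) (by omega) (by omega) hG
      · obtain ⟨hq1, hq2⟩ := no_next hH hc1 hn1
        unfold Ph at *
        by_cases hbd : b = d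
        · apply two_sources hH ha hb hab.le (s₁ := (a + d) / 2) (ρ₁ := (d - a) / 2)
            (s₂ := d) (ρ₂ := 1) <;> omega
        · apply two_sources hH ha hb hab.le (s₁ := (a + d) / 2) (ρ₁ := (d - a) / 2)
            (s₂ := (b + d) / 2) (ρ₂ := (d - b) / 2) <;> omega

/-- solution of the whole covering problem -/
def Sol (d : ℕ) (H : ℕ → ℕ) : Prop :=
  ∃ r : ℕ → ℕ, (∀ c, r c ≠ 0 → c ≤ d) ∧ (∀ c, r c ≤ d) ∧
    (∀ i, i ≤ d → ∃ c₁ c₂, c₁ ≠ c₂ ∧ Rch H r c₁ i ∧ Rch H r c₂ i) ∧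
    3 * ∑ c ∈ Finset.range (d + 1), r c ≤ 2 * W d H 0 + 4

lemma radial (hd : 1 ≤ d) (hH : ∀ i ≤ d, H i ≤ i ∧ i + H i ≤ d)
    (h : 3 * (d + 1) ≤ 2 * W d H 0 + 4) : Sol d H := by
  have hce := cut_end hH
  have h0 := cut_zero hH
  have key : ∀ s₁ s₂ ρ₁ ρ₂ : ℕ, s₁ ≠ s₂ → s₁ ≤ d → s₂ ≤ d → 1 ≤ ρ₁ → ρ₁ ≤ d → 1 ≤ ρ₂ → ρ₂ ≤ d →
      s₁ ≤ ρ₁ → d ≤ s₁ + ρ₁ → s₂ ≤ ρ₂ → d ≤ s₂ + ρ₂ → ρ₁ + ρ₂ = d + 1 → Sol d H := by
    intro s₁ s₂ ρ₁ ρ₂ hne h1 h2 h3 h4 h5 h6 h7 h8 h9 h10 h11
    have hr0 : ∀ c : ℕ, (Function.update (fun _ => 0) s₁ ρ₁ : ℕ → ℕ) c ≠ 0 → c = s₁ := by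
      intro c hc
      by_contra hcon
      rw [Function.update_of_ne hcon] at hc
      exact hc rfl
    have hrs : (Function.update (fun _ => 0) s₁ ρ₁ : ℕ → ℕ) s₂ = 0 := by
      by_contra hcon
      exact hne (hr0 s₂ hcon).symm
    have e1 : Function.update (Function.update (fun _ => 0) s₁ ρ₁ : ℕ → ℕ) s₂ ρ₂ s₁ = ρ₁ := by
      rw [Function.update_of_ne hne, Function.update_self]
    have e2 : Function.update (Function.update (fun _ => 0) s₁ ρ₁ : ℕ → ℕ) s₂ ρ₂ s₂ = ρ₂ := by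
      rw [Function.update_self]
    have e3 : ∀ c, c ≠ s₁ → c ≠ s₂ →
        Function.update (Function.update (fun _ => 0) s₁ ρ₁ : ℕ → ℕ) s₂ ρ₂ c = 0 := by
      intro c hc1 hc2
      rw [Function.update_of_ne hc2, Function.update_of_ne hc1]
    refine ⟨Function.update (Function.update (fun _ => 0) s₁ ρ₁) s₂ ρ₂, ?_, ?_, ?_, ?_⟩
    · intro c hc
      by_cases hc2 : c = s₂
      · subst hc2; exact h2
      · by_cases hc1 : c = s₁
        · subst hc1; exact h1
        · exact absurd (e3 c hc1 hc2) hc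
    · intro c
      by_cases hc2 : c = s₂
      · rw [hc2, e2]; exact h6
      · by_cases hc1 : c = s₁
        · rw [hc1, e1]; exact h4
        · rw [e3 c hc1 hc2]; omega
    · intro i hid
      refine ⟨s₁, s₂, hne, ⟨?_, ?_⟩, ⟨?_, ?_⟩⟩
      · rw [e1]; omega
      · rw [e1]; exact reach_of h0 hce (by omega) (by omega) hid (by omega) (by omega)
      · rw [e2]; omega
      · rw [e2]; exact reach_of h0 hce (by omega) (by omega) hid (by omega) (by omega)
    · rw [sum_update hrs h2, sum_update rfl h1]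
      simp only [Finset.sum_const_zero]
      omega
  rcases Nat.even_or_odd d with he | ho
  · obtain ⟨m, hm⟩ := he
    exact key m (m + 1) m (m + 1) (by omega) (by omega) (by omega) (by omega) (by omega)
      (by omega) (by omega) (by omega) (by omega) (by omega) (by omega) (by omega)
  · obtain ⟨m, hm⟩ := ho
    exact key m (m + 1) (m + 1) (m + 1) (by omega) (by omega) (by omega) (by omega) (by omega)
      (by omega) (by omega) (by omega) (by omega) (by omega) (by omega) (by omega)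

theorem oneD (hd : 1 ≤ d) (hH : ∀ i ≤ d, H i ≤ i ∧ i + H i ≤ d) : Sol d H := by
  have h0 := cut_zero hH
  have hP0 : Ph d H 0 = 2 * W d H 0 := by unfold Ph; omega
  by_cases hn0 : HasNext d H 0
  · obtain ⟨z₁, hz01, hz1, hp1, hP1⟩ := next_exists h0 hn0
    by_cases hn1 : HasNext d H z₁
    · obtain ⟨z₂, hz12, hz2, hp2, hP2⟩ := next_exists hz1 hn1
      by_cases hn2 : HasNext d H z₂
      · have hG : Good d H 0 z₂ := state_good hH (d + 1) 0 z₂ (by omega) h0 hz2 (by omega) hn2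
          (Or.inr ⟨by omega, by omega⟩)
        obtain ⟨r, hr1, hr2, hr3, hr4, hr5⟩ := hG
        have hz2d := hz2.1
        set s := z₂ / 2 - 1 with hs
        set ρ := z₂ / 2 with hρ
        have hev : z₂ % 2 = 0 := by omega
        have hrs : r s = 0 := by
          by_contra hcon
          have := (hr1 s hcon).2
          omega
        have hz2dd : z₂ ≤ d := by
          obtain ⟨c, hc1, hc2, _⟩ := hn2
          have := hc2.1
          omega
        refine ⟨Function.update r s ρ, ?_, ?_, ?_, ?_⟩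
        · intro c' hc'
          by_cases hcs : c' = s
          · subst hcs
            omega
          · rw [Function.update_of_ne hcs] at hc'
            exact (hr1 c' hc').1
        · intro c'
          by_cases hcs : c' = s
          · rw [hcs, Function.update_self]
            omega
          · rw [Function.update_of_ne hcs]
            exact hr2 c'
        · intro i hid
          by_cases hic : i < z₂
          · obtain ⟨c', hc'⟩ := hr3 i (by omega) hid
            obtain ⟨h1, h2⟩ := Rch_update (ρ := ρ) hrs hc'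
            refine ⟨c', s, h2, h1, ?_, ?_⟩
            · rw [Function.update_self]; omega
            · rw [Function.update_self]
              exact reach_of h0 hz2 (by omega) hic hid (by omega) (by omega)
          · obtain ⟨c₁, c₂, h0', h1, h2⟩ := hr4 i (by omega) hid
            exact ⟨c₁, c₂, h0', (Rch_update hrs h1).1, (Rch_update hrs h2).1⟩
        · rw [sum_update hrs (by omega)]
          unfold Ph at *
          omega
      · obtain ⟨hq1, hq2⟩ := no_next hH hz2 hn2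
        exact radial hd hH (by omega)
    · obtain ⟨hq1, hq2⟩ := no_next hH hz1 hn1
      exact radial hd hH (by omega)
  · obtain ⟨hq1, hq2⟩ := no_next hH h0 hn0
    exact radial hd hH (by omega)

end Pool.Agent.Q162.TwoB
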