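import Pool.Agent.Q162.TwoB.OneD

/-!
Distances in a finite tree relative to a diametrical path.
-/

namespace Pool.Agent.Q162.TwoB

open Finset SimpleGraph

variable {V : Type*} {G : SimpleGraph V}

lemma path_length (hG : G.IsTree) {u v : V} (p : G.Walk u v) (hp : p.IsPath) :
    p.length = G.dist u v := by
  obtain ⟨q, hq, hql⟩ := hG.1.exists_path_of_dist u v
  have h := hG.2.path_unique ⟨p, hp⟩ ⟨q, hq⟩
  have h2 : p = q := congrArg Subtype.val h
  rw [h2, hql]

lemma append_isPath {u m v : V} (p : G.Walk u m) (q : G.Walk m v) (hp : p.IsPath) (hq : q.IsPath)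
    (h : ∀ w, w ∈ p.support → w ∈ q.support → w = m) : (p.append q).IsPath := by
  rw [Walk.isPath_def, Walk.support_append, List.nodup_append]
  refine ⟨hp.support_nodup, ?_, ?_⟩
  · have := hq.support_nodup
    rw [Walk.support_eq_cons] at this
    exact (List.nodup_cons.1 this).2
  · intro a ha b hb hab
    subst hab
    have h1 : a = m := h a ha (List.mem_of_mem_tail hb)
    subst h1
    have := hq.support_nodup
    rw [Walk.support_eq_cons] at this
    exact (List.nodup_cons.1 this).1 hb

/-- the median of `x, y, u` on a geodesic from `x` to `y` -/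
lemma median (hG : G.IsTree) {x y : V} (P : G.Walk x y) (hP : P.IsPath) (u : V) :
    ∃ m ∈ P.support, G.dist x u = G.dist x m + G.dist m u ∧
      G.dist y u = G.dist y m + G.dist m u := by
  classical
  obtain ⟨m, hm, hmin⟩ := Finset.exists_min_image P.support.toFinset (fun m => G.dist m u)
    ⟨x, by simp⟩
  rw [List.mem_toFinset] at hm
  refine ⟨m, hm, ?_⟩
  obtain ⟨q, hq, hql⟩ := hG.1.exists_path_of_dist m u
  have hdisj : ∀ w, w ∈ P.support → w ∈ q.support → w = m := by
    intro w hw hwq
    by_contra hne
    have h1 := hmin w (List.mem_toFinset.2 hw)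
    have h2 : G.dist w u ≤ (q.dropUntil w hwq).length := dist_le _
    have h3 : (q.takeUntil w hwq).length + (q.dropUntil w hwq).length = q.length := by
      rw [← Walk.length_append, Walk.take_spec]
    have h4 : 0 < (q.takeUntil w hwq).length := by
      rcases Nat.eq_zero_or_pos (q.takeUntil w hwq).length with h | h
      · exact absurd (Walk.eq_of_length_eq_zero h).symm hne
      · exact h
    omega
  constructor
  · have h1 : ((P.takeUntil m hm).append q).IsPath := by
      apply append_isPath _ _ (hP.takeUntil hm) hq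
      intro w hw hwq
      exact hdisj w (P.support_takeUntil_subset hm hw) hwq
    have h2 := path_length hG _ h1
    have h3 := path_length hG _ (hP.takeUntil hm)
    rw [Walk.length_append, h3, hql] at h2
    exact h2.symm
  · have h1 : ((P.dropUntil m hm).reverse.append q).IsPath := by
      apply append_isPath _ _ (hP.dropUntil hm).reverse hq
      intro w hw hwq
      rw [Walk.support_reverse, List.mem_reverse] at hw
      exact hdisj w (P.support_dropUntil_subset hm hw) hwq
    have h2 := path_length hG _ h1
    have h3 := path_length hG _ (hP.dropUntil hm).reverse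
    rw [Walk.length_append, h3, hql] at h2
    exact h2.symm

lemma getVert_dist_le (hc : G.Connected) {x y : V} (P : G.Walk x y) (i k : ℕ) :
    G.dist (P.getVert i) (P.getVert (i + k)) ≤ k := by
  induction k with
  | zero => simp
  | succ k ih =>
    have h1 : G.dist (P.getVert (i + k)) (P.getVert (i + (k + 1))) ≤ 1 := by
      by_cases h : i + k < P.length
      · have := P.adj_getVert_succ h
        have h2 := dist_eq_one_iff_adj.2 this
        have h3 : i + (k + 1) = i + k + 1 := by ring
        rw [h3, h2]
      · rw [P.getVert_of_length_le (by omega), P.getVert_of_length_le (by omega)]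
        simp
    have h2 := hc.dist_triangle (u := P.getVert i) (v := P.getVert (i + k))
      (w := P.getVert (i + (k + 1)))
    omega

lemma getVert_dist_le' (hc : G.Connected) {x y : V} (P : G.Walk x y) (i j : ℕ) :
    G.dist (P.getVert i) (P.getVert j) ≤ (i - j) + (j - i) := by
  rcases le_total i j with h | h
  · obtain ⟨k, rfl⟩ := Nat.exists_eq_add_of_le h
    have := getVert_dist_le hc P i k
    omega
  · obtain ⟨k, rfl⟩ := Nat.exists_eq_add_of_le h
    have := getVert_dist_le hc P j k
    rw [dist_comm]
    omega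

/-- the tree theorem, with explicit length `d` of a longest path -/
theorem tree_main [Fintype V] (hG : G.IsTree) (hcard : 2 ≤ Fintype.card V) :
    ∃ f : V → ℕ, (∀ v, f v ≤ G.diam) ∧
      (∀ u, ∃ v₁ v₂, v₁ ≠ v₂ ∧ 0 < f v₁ ∧ 0 < f v₂ ∧ G.dist u v₁ ≤ f v₁ ∧ G.dist u v₂ ≤ f v₂) ∧
      3 * ∑ v, f v ≤ 2 * Fintype.card V + 4 := by
  classical
  have hc := hG.1
  haveI : Nontrivial V := Fintype.one_lt_card_iff_nontrivial.1 (by omega)
  have htop : G.ediam ≠ ⊤ := connected_iff_ediam_ne_top.1 hc
  obtain ⟨x, y, hxy⟩ := G.exists_dist_eq_diam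
  set d := G.diam with hd
  have hd1 : 1 ≤ d := by
    have := diam_ne_zero_of_ediam_ne_top htop
    omega
  have hle : ∀ u v, G.dist u v ≤ d := fun u v => dist_le_diam htop
  obtain ⟨P, hP, hPl⟩ := hc.exists_path_of_dist x y
  have hlen : P.length = d := by rw [hPl, hxy]
  have hv0 : P.getVert 0 = x := P.getVert_zero
  have hvd : P.getVert d = y := by rw [← hlen]; exact P.getVert_length
  have hdx : ∀ i ≤ d, G.dist x (P.getVert i) = i ∧ G.dist y (P.getVert i) = d - i := by
    intro i hi
    have h1 := getVert_dist_le' hc P 0 i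
    have h2 := getVert_dist_le' hc P d i
    rw [hv0] at h1
    rw [hvd] at h2
    have h3 := hc.dist_triangle (u := x) (v := P.getVert i) (w := y)
    rw [dist_comm (u := P.getVert i) (v := y)] at h3
    omega
  have hmed : ∀ u, ∃ i ≤ d, G.dist x u = i + G.dist (P.getVert i) u ∧
      G.dist y u = (d - i) + G.dist (P.getVert i) u := by
    intro u
    obtain ⟨m, hm, h1, h2⟩ := median hG P hP u
    obtain ⟨i, hi1, hi2⟩ := Walk.mem_support_iff_exists_getVert.1 hm
    have := hdx i (by omega)
    subst hi1
    exact ⟨i, by omega, by omega, by omega⟩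
  -- the index and the height of a vertex
  let idx : V → ℕ := fun u => (G.dist x u + d - G.dist y u) / 2
  let ht : V → ℕ := fun u => (G.dist x u + G.dist y u - d) / 2
  have hidx : ∀ u, idx u ≤ d ∧ G.dist x u = idx u + ht u ∧ G.dist y u = (d - idx u) + ht u ∧
      G.dist (P.getVert (idx u)) u = ht u := by
    intro u
    obtain ⟨i, hi, h1, h2⟩ := hmed u
    have h3 : idx u = i := by
      change (G.dist x u + d - G.dist y u) / 2 = i
      omega
    have h4 : ht u = G.dist (P.getVert i) u := by
      change (G.dist x u + G.dist y u - d) / 2 = _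
      omega
    rw [h3, h4]
    exact ⟨hi, h1, h2, rfl⟩
  let H : ℕ → ℕ := fun i => (Finset.univ.filter (fun u => idx u = i)).sup ht
  have hHle : ∀ u, ht u ≤ H (idx u) := by
    intro u
    exact Finset.le_sup (f := ht) (Finset.mem_filter.2 ⟨Finset.mem_univ u, rfl⟩)
  have hHatt : ∀ i ≤ d, ∃ u, idx u = i ∧ ht u = H i := by
    intro i hi
    have hne : (Finset.univ.filter (fun u => idx u = i)).Nonempty := by
      refine ⟨P.getVert i, Finset.mem_filter.2 ⟨Finset.mem_univ _, ?_⟩⟩
      change (G.dist x (P.getVert i) + d - G.dist y (P.getVert i)) / 2 = i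
      rw [(hdx i hi).1, (hdx i hi).2]
      omega
    obtain ⟨u, hu, hu2⟩ := Finset.exists_mem_eq_sup _ hne ht
    exact ⟨u, (Finset.mem_filter.1 hu).2, hu2.symm⟩
  have hH : ∀ i ≤ d, H i ≤ i ∧ i + H i ≤ d := by
    intro i hi
    obtain ⟨u, hu1, hu2⟩ := hHatt i hi
    obtain ⟨h1, h2, h3, _⟩ := hidx u
    have h4 := hle x u
    have h5 := hle y u
    rw [hu1] at h1 h2 h3
    rw [← hu2]
    omega
  -- counting vertices
  have hcount : W d H 0 ≤ Fintype.card V := by
    have hex : ∀ p : ℕ × ℕ, ∃ w : V, p.1 ≤ d → p.2 ≤ H p.1 →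
        G.dist x w = p.1 + p.2 ∧ G.dist y w = (d - p.1) + p.2 := by
      rintro ⟨i, t⟩
      by_cases hi : i ≤ d
      · by_cases ht' : t ≤ H i
        · obtain ⟨u, hu1, hu2⟩ := hHatt i hi
          obtain ⟨h1, h2, h3, h4⟩ := hidx u
          rw [hu1] at h1 h2 h3 h4
          rw [hu2] at h2 h3 h4
          obtain ⟨q, hq, hql⟩ := hc.exists_path_of_dist (P.getVert i) u
          refine ⟨q.getVert t, fun _ _ => ?_⟩
          have h5 := getVert_dist_le' hc q 0 t
          have h6 := getVert_dist_le' hc q t q.length
          rw [q.getVert_zero] at h5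
          rw [q.getVert_length] at h6
          have h7 := hc.dist_triangle (u := x) (v := P.getVert i) (w := q.getVert t)
          have h8 := hc.dist_triangle (u := x) (v := q.getVert t) (w := u)
          have h9 := hc.dist_triangle (u := y) (v := P.getVert i) (w := q.getVert t)
          have h10 := hc.dist_triangle (u := y) (v := q.getVert t) (w := u)
          have h11 := hdx i hi
          change G.dist x (q.getVert t) = i + t ∧ G.dist y (q.getVert t) = (d - i) + t
          omega
        · exact ⟨x, fun _ h => absurd h ht'⟩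
      · exact ⟨x, fun h => absurd h hi⟩
    choose g hg using hex
    have hW : W d H 0 = ((Finset.range (d + 1)).sigma (fun i => Finset.range (1 + H i))).card := by
      rw [Finset.card_sigma]
      unfold W
      rw [← Finset.range_eq_Ico]
      simp
    rw [hW, ← Finset.card_univ]
    apply Finset.card_le_card_of_injOn (fun s => g (s.1, s.2))
    · intro s _
      simp
    · rintro ⟨i, t⟩ hs ⟨j, t'⟩ hs' heq
      have hs := Finset.mem_sigma.1 (Finset.mem_coe.1 hs)
      have hs' := Finset.mem_sigma.1 (Finset.mem_coe.1 hs')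
      simp only [Finset.mem_range] at hs hs'
      have e1 := hg (i, t) (by simp; omega) (by simp; omega)
      have e2 := hg (j, t') (by simp; omega) (by simp; omega)
      simp only at e1 e2 heq
      rw [heq] at e1
      have hij : i = j := by omega
      subst hij
      have htt : t = t' := by omega
      subst htt
      rfl
  obtain ⟨r, hr1, hr2, hr3, hr4⟩ := oneD hd1 hH
  have hinj : ∀ i ≤ d, ∀ j ≤ d, P.getVert i = P.getVert j → i = j := by
    intro i hi j hj hij
    have h1 := (hdx i hi).1
    have h2 := (hdx j hj).1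
    rw [hij] at h1
    omega
  let f : V → ℕ := fun v => ∑ c ∈ Finset.range (d + 1), if P.getVert c = v then r c else 0
  have hf : ∀ c ≤ d, f (P.getVert c) = r c := by
    intro c hcd
    change (∑ c' ∈ Finset.range (d + 1), if P.getVert c' = P.getVert c then r c' else 0) = r c
    rw [Finset.sum_eq_single c]
    · simp
    · intro c' hc' hne
      rw [if_neg]
      intro h
      exact hne (hinj c' (by have := Finset.mem_range.1 hc'; omega) c hcd h)
    · intro h
      exact absurd (Finset.mem_range.2 (by omega)) h
  refine ⟨f, ?_, ?_, ?_⟩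
  · intro v
    by_cases hv : ∃ c ≤ d, P.getVert c = v
    · obtain ⟨c, hcd, rfl⟩ := hv
      rw [hf c hcd]
      exact hr2 c
    · have : f v = 0 := by
        apply Finset.sum_eq_zero
        intro c hc'
        rw [if_neg]
        intro h
        exact hv ⟨c, by have := Finset.mem_range.1 hc'; omega, h⟩
      rw [this]
      omega
  · intro u
    obtain ⟨h1, h2, h3, h4⟩ := hidx u
    obtain ⟨c₁, c₂, hne, hR1, hR2⟩ := hr3 (idx u) h1
    have hreach : ∀ c, Rch H r c (idx u) → c ≤ d ∧ 0 < f (P.getVert c) ∧
        G.dist u (P.getVert c) ≤ f (P.getVert c) := by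
      intro c hR
      obtain ⟨hR0, hRa, hRb⟩ := hR
      have hcd := hr1 c hR0
      rw [hf c hcd]
      refine ⟨hcd, by omega, ?_⟩
      have h5 := hc.dist_triangle (u := u) (v := P.getVert (idx u)) (w := P.getVert c)
      have h6 := getVert_dist_le' hc P (idx u) c
      rw [dist_comm (u := u) (v := P.getVert (idx u)), h4] at h5
      have h7 := hHle u
      omega
    obtain ⟨a1, a2, a3⟩ := hreach c₁ hR1
    obtain ⟨b1, b2, b3⟩ := hreach c₂ hR2
    exact ⟨P.getVert c₁, P.getVert c₂, fun h => hne (hinj _ a1 _ b1 h), a2, b2, a3, b3⟩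
  · have hsum : ∑ v, f v = ∑ c ∈ Finset.range (d + 1), r c := by
      change (∑ v, ∑ c ∈ Finset.range (d + 1), if P.getVert c = v then r c else 0) = _
      rw [Finset.sum_comm]
      apply Finset.sum_congr rfl
      intro c _
      simp
    rw [hsum]
    omega

end Pool.Agent.Q162.TwoB
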